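import Mathlib
import Pool.Agent.Helper43_LSA.Stmts

/-!
# Module EX: the process exists

Independent random maps: for every time and every load vector draw the next load vector.
-/

namespace Pool.Agent.LSA.H85

open Classical MeasureTheory Helper43.LSA
open scoped ENNReal

noncomputable section

variable {V : Type} [Fintype V] [Nonempty V]

/-- the sample space -/
abbrev Om (V : Type) : Type := ∀ _ : ℕ × (V → ℕ), (V → ℕ)

/-- the law of a single coordinate -/
def law (G : SimpleGraph V) (k : ℕ × (V → ℕ)) : Measure (V → ℕ) :=
  (stepLaw G (unif V) k.2).toMeasure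

instance (G : SimpleGraph V) (k : ℕ × (V → ℕ)) : IsProbabilityMeasure (law G k) := by
  unfold law; infer_instance

/-- the probability measure -/
def mu (G : SimpleGraph V) : Measure (Om V) := Measure.infinitePi (law G)

/-- the process -/
def proc (V : Type) : ℕ → Om V → (V → ℕ)
  | 0, _ => 0
  | m + 1, ω => ω (m, proc V m ω)

omit [Nonempty V] in
theorem measurable_proc (m : ℕ) : Measurable (proc V m) := by
  induction m with
  | zero => exact measurable_const
  | succ m ih =>
    refine measurable_to_countable' fun x => ?_
    have hset : (proc V (m + 1)) ⁻¹' {x} =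
        ⋃ y : V → ℕ, ((proc V m) ⁻¹' {y} ∩ {ω | ω (m, y) = x}) := by
      ext ω
      simp [proc]
    rw [hset]
    refine MeasurableSet.iUnion fun y => (ih (measurableSet_singleton y)).inter ?_
    have hm : Measurable fun ω : Om V => ω (m, y) := measurable_pi_apply (m, y)
    exact hm (measurableSet_singleton x)

omit [Nonempty V] in
theorem cyl_eq (x : ℕ → V → ℕ) (h0 : x 0 = 0) (m : ℕ) :
    {ω : Om V | ∀ i ≤ m, proc V i ω = x i} =
      Set.pi (((Finset.range m).image fun i => (i, x i)) : Finset (ℕ × (V → ℕ)))
        (fun k => ({x (k.1 + 1)} : Set (V → ℕ))) := by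
  ext ω
  simp only [Set.mem_ofPred_eq, Set.mem_pi, Finset.coe_image, Finset.coe_range, Set.mem_image,
    Set.mem_Iio, Set.mem_singleton_iff, forall_exists_index, and_imp]
  constructor
  · rintro h k i hi rfl
    have h1 := h (i + 1) hi
    have h2 := h i (by omega)
    simp only [proc] at h1
    rw [h2] at h1
    exact h1
  · intro h i
    induction i with
    | zero => intro _; simp [proc, h0]
    | succ i ih =>
      intro hi
      have h1 := h (i, x i) i (by omega) rfl
      simp only [proc]
      rw [ih (by omega)]
      exact h1

theorem mu_cyl (G : SimpleGraph V) (x : ℕ → V → ℕ) (h0 : x 0 = 0) (m : ℕ) :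
    mu G {ω : Om V | ∀ i ≤ m, proc V i ω = x i} =
      ∏ i ∈ Finset.range m, stepLaw G (unif V) (x i) (x (i + 1)) := by
  rw [cyl_eq x h0 m, mu, Measure.infinitePi_pi]
  · rw [Finset.prod_image]
    · refine Finset.prod_congr rfl fun i _ => ?_
      unfold law
      rw [PMF.toMeasure_apply_singleton _ _ (measurableSet_singleton _)]
    · intro a _ b _ hab
      simpa using congrArg Prod.fst hab
  · intro k _
    exact measurableSet_singleton _

theorem isLocalSearch (G : SimpleGraph V) : IsLocalSearch G (mu G) (proc V) where
  meas := measurable_proc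
  init := fun _ => rfl
  markov := by
    intro m x
    by_cases h0 : x 0 = 0
    · rw [mu_cyl G x h0 (m + 1), mu_cyl G x h0 m, Finset.prod_range_succ]
    · have h1 : ∀ n, {ω : Om V | ∀ i ≤ n, proc V i ω = x i} = ∅ := by
        intro n
        ext ω
        simp only [Set.mem_ofPred_eq, Set.mem_empty_iff_false, iff_false, not_forall]
        exact ⟨0, Nat.zero_le _, fun h => h0 h.symm⟩
      rw [h1, h1]
      simp

/-- Module EX -/
theorem ex_stmt : ExStmt := by
  intro V _ _ G
  exact ⟨Om V, inferInstance, mu G, proc V, by unfold mu; infer_instance, isLocalSearch G⟩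

end

end Pool.Agent.LSA.H85
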