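import Mathlib
import Pool.Agent.Helper43_LSA.Stmts

/-!
# Module PROC: the process and the laws `chain`
-/

namespace Pool.Agent.LSA.H85

open Classical MeasureTheory Helper43.LSA
open scoped ENNReal

noncomputable section

variable {V : Type} [Fintype V] [Nonempty V] {G : SimpleGraph V} {Ω : Type} [MeasurableSpace Ω]
  {μ : Measure Ω} {X : ℕ → Ω → V → ℕ}

/-- the path with the values `p` before time `m`, `x` at time `m` and `y` later -/
def path (m : ℕ) (p : Fin m → (V → ℕ)) (x y : V → ℕ) (i : ℕ) : V → ℕ :=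
  if h : i < m then p ⟨i, h⟩ else if i = m then x else y

omit [Fintype V] [Nonempty V] in
theorem path_lt {m : ℕ} (p : Fin m → (V → ℕ)) (x y : V → ℕ) {i : ℕ} (h : i < m) :
    path m p x y i = p ⟨i, h⟩ := by simp [path, h]

omit [Fintype V] [Nonempty V] in
theorem path_eq {m : ℕ} (p : Fin m → (V → ℕ)) (x y : V → ℕ) : path m p x y m = x := by
  simp [path]

omit [Fintype V] [Nonempty V] in
theorem path_succ {m : ℕ} (p : Fin m → (V → ℕ)) (x y : V → ℕ) : path m p x y (m + 1) = y := by
  simp [path]

theorem measurableSet_path (h : IsLocalSearch G μ X) (m : ℕ) (x : ℕ → V → ℕ) :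
    MeasurableSet {ω | ∀ i ≤ m, X i ω = x i} := by
  have : {ω | ∀ i ≤ m, X i ω = x i} = ⋂ i : ℕ, ⋂ _ : i ≤ m, (X i) ⁻¹' {x i} := by
    ext ω; simp
  rw [this]
  exact MeasurableSet.iInter fun i => MeasurableSet.iInter fun _ =>
    h.meas i (measurableSet_singleton _)

theorem mu_eq (h : IsLocalSearch G μ X) (m : ℕ) (x y : V → ℕ) :
    μ {ω | X m ω = x} = ∑' p : Fin m → (V → ℕ), μ {ω | ∀ i ≤ m, X i ω = path m p x y i} := by
  have hset : {ω | X m ω = x} =
      ⋃ p : Fin m → (V → ℕ), {ω | ∀ i ≤ m, X i ω = path m p x y i} := by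
    ext ω
    simp only [Set.mem_ofPred_eq, Set.mem_iUnion]
    constructor
    · intro hx
      refine ⟨fun i => X i ω, fun i hi => ?_⟩
      rcases Nat.lt_or_ge i m with h1 | h1
      · rw [path_lt _ _ _ h1]
      · have : i = m := by omega
        subst this
        rw [path_eq]; exact hx
    · rintro ⟨p, hp⟩
      have := hp m le_rfl
      rwa [path_eq] at this
  rw [hset, measure_iUnion]
  · intro p q hpq
    rw [Function.onFun, Set.disjoint_left]
    intro ω hp hq
    apply hpq
    funext i
    have h1 := hp i i.2.le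
    have h2 := hq i i.2.le
    rw [path_lt _ _ _ i.2] at h1 h2
    rw [← h1, ← h2]
  · intro p
    exact measurableSet_path h m _

theorem mu_pair (h : IsLocalSearch G μ X) (m : ℕ) (x y : V → ℕ) :
    μ {ω | X m ω = x ∧ X (m + 1) ω = y} = μ {ω | X m ω = x} * stepLaw G (unif V) x y := by
  rw [mu_eq h m x y, ← ENNReal.tsum_mul_right]
  have hset : {ω | X m ω = x ∧ X (m + 1) ω = y} =
      ⋃ p : Fin m → (V → ℕ), {ω | ∀ i ≤ m + 1, X i ω = path m p x y i} := by
    ext ω
    simp only [Set.mem_ofPred_eq, Set.mem_iUnion]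
    constructor
    · rintro ⟨hx, hy⟩
      refine ⟨fun i => X i ω, fun i hi => ?_⟩
      rcases Nat.lt_or_ge i m with h1 | h1
      · rw [path_lt _ _ _ h1]
      · rcases Nat.eq_or_lt_of_le h1 with h2 | h2
        · subst h2
          rw [path_eq]; exact hx
        · have : i = m + 1 := by omega
          subst this
          rw [path_succ]; exact hy
    · rintro ⟨p, hp⟩
      have h1 := hp m (Nat.le_succ m)
      have h2 := hp (m + 1) le_rfl
      rw [path_eq] at h1
      rw [path_succ] at h2
      exact ⟨h1, h2⟩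
  rw [hset, measure_iUnion]
  · refine tsum_congr fun p => ?_
    rw [h.markov m (path m p x y), path_eq, path_succ]
  · intro p q hpq
    rw [Function.onFun, Set.disjoint_left]
    intro ω hp hq
    apply hpq
    funext i
    have h1 := hp i (i.2.le.trans (Nat.le_succ m))
    have h2 := hq i (i.2.le.trans (Nat.le_succ m))
    rw [path_lt _ _ _ i.2] at h1 h2
    rw [← h1, ← h2]
  · intro p
    exact measurableSet_path h (m + 1) _

theorem measurableSet_eq (h : IsLocalSearch G μ X) (m : ℕ) (x : V → ℕ) :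
    MeasurableSet {ω | X m ω = x} := h.meas m (measurableSet_singleton x)

theorem mu_point [IsProbabilityMeasure μ] (h : IsLocalSearch G μ X) (m : ℕ) (y : V → ℕ) :
    μ {ω | X m ω = y} = chain G (unif V) m 0 y := by
  induction m generalizing y with
  | zero =>
    simp only [chain, h.init, PMF.pure_apply]
    by_cases hy : y = 0
    · subst hy; simp
    · rw [if_neg hy]
      have : {ω : Ω | (0 : V → ℕ) = y} = ∅ := by
        ext ω
        simp only [Set.mem_ofPred_eq, Set.mem_empty_iff_false, iff_false]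
        exact fun h => hy h.symm
      rw [this, measure_empty]
  | succ m ih =>
    simp only [chain, PMF.bind_apply]
    have hset : {ω | X (m + 1) ω = y} = ⋃ x : V → ℕ, {ω | X m ω = x ∧ X (m + 1) ω = y} := by
      ext ω; simp
    rw [hset, measure_iUnion]
    · refine tsum_congr fun x => ?_
      rw [mu_pair h, ih]
    · intro p q hpq
      rw [Function.onFun, Set.disjoint_left]
      rintro ω ⟨hp, _⟩ ⟨hq, _⟩
      exact hpq (hp.symm.trans hq)
    · intro x
      exact (measurableSet_eq h m x).inter (measurableSet_eq h (m + 1) y)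

theorem mu_set [IsProbabilityMeasure μ] (h : IsLocalSearch G μ X) (m : ℕ)
    (S : (V → ℕ) → Prop) : μ {ω | S (X m ω)} = pr (chain G (unif V) m 0) S := by
  have hset : {ω | S (X m ω)} = ⋃ x : V → ℕ, {ω | X m ω = x ∧ S x} := by
    ext ω; simp
  rw [hset, measure_iUnion]
  · unfold pr ex
    refine tsum_congr fun x => ?_
    by_cases hS : S x
    · simp only [hS, and_true, if_true, mul_one]
      exact mu_point h m x
    · simp [hS]
  · intro p q hpq
    rw [Function.onFun, Set.disjoint_left]
    rintro ω ⟨hp, _⟩ ⟨hq, _⟩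
    exact hpq (hp.symm.trans hq)
  · intro x
    by_cases hS : S x
    · simpa [hS] using measurableSet_eq h m x
    · simp [hS]

theorem ae_le [IsProbabilityMeasure μ] (h : IsLocalSearch G μ X) (m : ℕ) :
    ∀ᵐ ω ∂μ, X m ω ≤ X (m + 1) ω := by
  rw [ae_iff]
  have hset : {ω | ¬ X m ω ≤ X (m + 1) ω} =
      ⋃ p : (V → ℕ) × (V → ℕ), {ω | (X m ω = p.1 ∧ X (m + 1) ω = p.2) ∧ ¬ p.1 ≤ p.2} := by
    ext ω; simp
  rw [hset, measure_iUnion_null_iff]
  rintro ⟨x, y⟩
  by_cases hxy : x ≤ y
  · simp [hxy]
  · simp only [hxy, not_false_eq_true, and_true]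
    rw [mu_pair h]
    have : stepLaw G (unif V) x y = 0 := by
      by_contra h0
      exact hxy (le_of_stepLaw ((PMF.mem_support_iff _ _).2 h0))
    rw [this, mul_zero]

/-- Module PROC -/
theorem proc_stmt : ProcStmt := by
  intro V _ _ G Ω _ μ _ X h
  refine ⟨fun m S => mu_set h m S, ?_⟩
  rw [ae_all_iff]
  exact fun m => ae_le h m

end

end Pool.Agent.LSA.H85
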