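import Mathlib
import Pool.Agent.Helper43_LSA.Stmts

/-!
# Module TUP: the upper bound for the cover time on regular graphs
-/

namespace Pool.Agent.LSA.H85

open Classical MeasureTheory Helper43.LSA
open scoped ENNReal

noncomputable section

variable {V : Type} [Fintype V]

theorem self_mem_ball (G : SimpleGraph V) (u : V) (r : ℕ) : u ∈ ball G u r := by
  rw [mem_ball]; simp

theorem ball_subset (G : SimpleGraph V) (u : V) {r s : ℕ} (h : r ≤ s) :
    ball G u r ⊆ ball G u s := by
  intro v hv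
  rw [mem_ball] at hv ⊢
  exact hv.trans (by exact_mod_cast h)

theorem one_le_card_ball (G : SimpleGraph V) (u : V) (r : ℕ) : 1 ≤ (ball G u r).card :=
  Finset.card_pos.2 ⟨u, self_mem_ball G u r⟩

theorem R₂_mem (G : SimpleGraph V) (u : V) :
    Real.log (Fintype.card V) ≤ R₂ G * (ball G u (R₂ G)).card := by
  have hne : {r : ℕ | ∀ u : V, Real.log (Fintype.card V) ≤ r * (ball G u r).card}.Nonempty := by
    refine ⟨⌈Real.log (Fintype.card V)⌉₊, fun u => ?_⟩
    calc Real.log (Fintype.card V) ≤ (⌈Real.log (Fintype.card V)⌉₊ : ℝ) := Nat.le_ceil _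
      _ = (⌈Real.log (Fintype.card V)⌉₊ : ℝ) * 1 := (mul_one _).symm
      _ ≤ _ := by
        refine mul_le_mul_of_nonneg_left ?_ (Nat.cast_nonneg _)
        exact_mod_cast one_le_card_ball G u _
  exact Nat.sInf_mem hne u

theorem sum_ball_ge (G : SimpleGraph V) (u : V) :
    5 * Real.log (Fintype.card V) ≤
      ((∑ i ∈ Finset.range (6 * R₂ G), (ball G u i).card : ℕ) : ℝ) := by
  have h1 : 5 * R₂ G * (ball G u (R₂ G)).card ≤
      ∑ i ∈ Finset.range (6 * R₂ G), (ball G u i).card := by
    calc 5 * R₂ G * (ball G u (R₂ G)).card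
        = ∑ i ∈ Finset.Ico (R₂ G) (6 * R₂ G), (ball G u (R₂ G)).card := by
          rw [Finset.sum_const, Nat.card_Ico, smul_eq_mul]
          congr 1
          omega
      _ ≤ ∑ i ∈ Finset.Ico (R₂ G) (6 * R₂ G), (ball G u i).card :=
          Finset.sum_le_sum fun i hi =>
            Finset.card_le_card (ball_subset G u (Finset.mem_Ico.1 hi).1)
      _ ≤ _ := Finset.sum_le_sum_of_subset (by
          intro i hi
          rw [Finset.mem_Ico] at hi
          exact Finset.mem_range.2 hi.2)
  have h2 := R₂_mem G u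
  have h3 : ((5 * R₂ G * (ball G u (R₂ G)).card : ℕ) : ℝ) ≤
      ((∑ i ∈ Finset.range (6 * R₂ G), (ball G u i).card : ℕ) : ℝ) := by exact_mod_cast h1
  push_cast at h3 ⊢
  linarith

theorem pow_three_le {n S : ℕ} (hn : 1 ≤ n) (h : 5 * Real.log n ≤ S) : n ^ 3 ≤ 2 ^ S := by
  have hn0 : (0 : ℝ) < n := by exact_mod_cast hn
  have hlog : 0 ≤ Real.log n := Real.log_nonneg (by exact_mod_cast hn)
  have h1 : Real.log ((n : ℝ) ^ 3) ≤ Real.log ((2 : ℝ) ^ S) := by
    rw [Real.log_pow, Real.log_pow]
    have h2 : (0.6931471803 : ℝ) < Real.log 2 := Real.log_two_gt_d9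
    have h3 : (0 : ℝ) ≤ S := Nat.cast_nonneg _
    push_cast
    nlinarith
  have h4 := (Real.log_le_log_iff (by positivity) (by positivity)).1 h1
  exact_mod_cast h4

theorem enn_bound {n : ℕ} (hn : 2 ≤ n) : (n : ℝ≥0∞) * (2 * ((n : ℝ≥0∞) ^ 3)⁻¹) ≤ (n : ℝ≥0∞)⁻¹ := by
  have h0 : (n : ℝ≥0∞) ≠ 0 := by
    simp; omega
  rw [ENNReal.le_inv_iff_mul_le]
  calc (n : ℝ≥0∞) * (2 * ((n : ℝ≥0∞) ^ 3)⁻¹) * n = ((2 * n ^ 2 : ℕ) : ℝ≥0∞) * ((n : ℝ≥0∞) ^ 3)⁻¹ := by
        push_cast; ring
    _ ≤ ((n ^ 3 : ℕ) : ℝ≥0∞) * ((n : ℝ≥0∞) ^ 3)⁻¹ := by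
        gcongr
        calc 2 * n ^ 2 ≤ n * n ^ 2 := Nat.mul_le_mul_right _ hn
          _ = n ^ 3 := by ring
    _ = 1 := by
        push_cast
        exact ENNReal.mul_inv_cancel (pow_ne_zero _ h0) (by simp)

theorem union_bound (P : PMF (V → ℕ)) (hn : 2 ≤ Fintype.card V)
    (h : ∀ v, pr P (fun X => X v = 0) ≤ 2 * ((Fintype.card V : ℝ≥0∞) ^ 3)⁻¹) :
    pr P (fun X => ∃ v, X v = 0) ≤ (Fintype.card V : ℝ≥0∞)⁻¹ := by
  calc pr P (fun X => ∃ v, X v = 0)
      ≤ pr P (fun X => ∃ v ∈ (Finset.univ : Finset V), X v = 0) :=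
        pr_mono P fun X _ ⟨v, hv⟩ => ⟨v, Finset.mem_univ v, hv⟩
    _ ≤ ∑ v ∈ (Finset.univ : Finset V), pr P (fun X => X v = 0) :=
        pr_exists_le P Finset.univ fun v X => X v = 0
    _ ≤ ∑ _v ∈ (Finset.univ : Finset V), 2 * ((Fintype.card V : ℝ≥0∞) ^ 3)⁻¹ :=
        Finset.sum_le_sum fun v _ => h v
    _ = (Fintype.card V : ℝ≥0∞) * (2 * ((Fintype.card V : ℝ≥0∞) ^ 3)⁻¹) := by
        rw [Finset.sum_const, nsmul_eq_mul, Finset.card_univ]
    _ ≤ _ := enn_bound hn

/-! ### Degree zero -/

theorem ball_eq_of_deg_zero (hG : GeoStmt) {G : SimpleGraph V} (h : Reg G 0) (u : V) (r : ℕ) :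
    ball G u r = {u} := by
  have hn : ∀ v, nbr G v = ∅ := fun v => Finset.card_eq_zero.1 (h v)
  induction r with
  | zero => exact hG.ball_zero V G u
  | succ r ih =>
    rw [hG.ball_succ V G u r, ih, cns, Finset.singleton_biUnion, cn_eq, hn]
    simp

theorem not_canMove_of_deg_zero {G : SimpleGraph V} (h : Reg G 0) (X : V → ℕ) (v : V) :
    ¬ CanMove G X v := by
  rintro ⟨w, hw, _⟩
  have h1 : nbr G v = ∅ := Finset.card_eq_zero.1 (h v)
  have h2 := mem_nbr.2 hw
  rw [h1] at h2
  simp at h2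

theorem deg_zero_step [Nonempty V] {G : SimpleGraph V} (h : Reg G 0) (v : V) (m : ℕ) :
    pr (chain G (unif V) m 0) (fun X => X v = 0) ≤
      (ENNReal.ofReal (1 - 1 / Fintype.card V)) ^ m := by
  have hn : (0 : ℝ) < Fintype.card V := by exact_mod_cast Fintype.card_pos
  have hn1 : (1 : ℝ) ≤ Fintype.card V := by
    exact_mod_cast (Fintype.card_pos : 0 < Fintype.card V)
  induction m with
  | zero => simpa using pr_le_one _ _
  | succ m ih =>
    unfold pr at ih ⊢
    rw [ex_chain_succ, pow_succ, mul_comm]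
    set ind : (V → ℕ) → ℝ≥0∞ := fun X => @ite _ (X v = 0) (Classical.propDecidable _) 1 0
      with hind
    have ind_pos : ∀ X : V → ℕ, X v = 0 → ind X = 1 := fun X hX => by
      rw [hind]; exact if_pos hX
    have ind_neg : ∀ X : V → ℕ, X v ≠ 0 → ind X = 0 := fun X hX => by
      rw [hind]; exact if_neg hX
    have ind_le : ∀ X : V → ℕ, ind X ≤ 1 := fun X => by
      by_cases hX : X v = 0
      · rw [ind_pos X hX]
      · rw [ind_neg X hX]; exact zero_le_one
    calc ex (chain G (unif V) m 0) (fun Y => ex (stepLaw G (unif V) Y) ind)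
        ≤ ex (chain G (unif V) m 0) (fun Y => ENNReal.ofReal (1 - 1 / Fintype.card V) *
            ind Y) := by
          refine ex_mono _ fun Y _ => ?_
          rw [ex_stepLaw]
          simp_rw [ex_walk_stay (not_canMove_of_deg_zero h Y _)]
          by_cases hY : Y v = 0
          · rw [ind_pos Y hY, mul_one]
            calc ∑ u, unif V u * ind (bump Y u)
                = ∑ u ∈ Finset.univ.erase v, unif V u * ind (bump Y u) := by
                  rw [← Finset.add_sum_erase _ _ (Finset.mem_univ v),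
                    ind_neg (bump Y v) (by simp)]
                  simp
              _ ≤ ∑ _u ∈ Finset.univ.erase v, (Fintype.card V : ℝ≥0∞)⁻¹ := by
                  refine Finset.sum_le_sum fun u _ => ?_
                  have h1 : unif V u = (Fintype.card V : ℝ≥0∞)⁻¹ := by
                    simp [unif]
                  rw [h1]
                  calc (Fintype.card V : ℝ≥0∞)⁻¹ * ind (bump Y u)
                      ≤ (Fintype.card V : ℝ≥0∞)⁻¹ * 1 := mul_le_mul_right (ind_le _) _
                    _ = _ := mul_one _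
              _ = ENNReal.ofReal (1 - 1 / Fintype.card V) := by
                  rw [Finset.sum_const, Finset.card_erase_of_mem (Finset.mem_univ v),
                    Finset.card_univ, nsmul_eq_mul]
                  have h2 : (1 - 1 / Fintype.card V : ℝ) =
                      ((Fintype.card V - 1 : ℕ) : ℝ) / (Fintype.card V : ℝ) := by
                    rw [Nat.cast_sub Fintype.card_pos]
                    field_simp
                    simp
                  rw [h2, ENNReal.ofReal_div_of_pos hn, ENNReal.ofReal_natCast,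
                    ENNReal.ofReal_natCast, ENNReal.div_eq_inv_mul, mul_comm]
          · rw [ind_neg Y hY, mul_zero]
            refine le_of_eq (Finset.sum_eq_zero fun u _ => ?_)
            have h3 : Y v ≤ bump Y u v := le_bump Y u v
            rw [ind_neg (bump Y u) (by omega), mul_zero]
      _ = ENNReal.ofReal (1 - 1 / Fintype.card V) *
            ex (chain G (unif V) m 0) ind := ex_mul_left _ _ _
      _ ≤ _ := mul_le_mul_right ih _

/-- Module TUP -/
theorem tup_stmt (hL : LowerStmt) (hG : GeoStmt) : TupStmt := by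
  refine ⟨21000, 2, ?_⟩
  intro V _ _ G D hD hn m hm
  refine union_bound _ hn fun v => ?_
  have hn1 : 1 ≤ Fintype.card V := by omega
  have hn0 : (0 : ℝ) < Fintype.card V := by exact_mod_cast hn1
  rcases Nat.eq_zero_or_pos D with h0 | hpos
  · subst h0
    refine (deg_zero_step hD v m).trans ?_
    have hR := R₂_mem G v
    rw [ball_eq_of_deg_zero hG hD, Finset.card_singleton, Nat.cast_one, mul_one] at hR
    have hlog : 0 ≤ Real.log (Fintype.card V) := Real.log_nonneg (by exact_mod_cast hn1)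
    have h1 : (1 - 1 / Fintype.card V : ℝ) ^ m ≤ ((Fintype.card V : ℝ) ^ 3)⁻¹ := by
      have h2 : (0 : ℝ) ≤ 1 - 1 / Fintype.card V := by
        rw [sub_nonneg, div_le_one hn0]
        exact_mod_cast hn1
      have h3 : (1 - 1 / Fintype.card V : ℝ) ≤ Real.exp (-(1 / Fintype.card V)) := by
        have := Real.add_one_le_exp (-(1 / Fintype.card V : ℝ))
        linarith
      calc (1 - 1 / Fintype.card V : ℝ) ^ m ≤ Real.exp (-(1 / Fintype.card V)) ^ m :=
            pow_le_pow_left₀ h2 h3 m
        _ = Real.exp (-(m / Fintype.card V)) := by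
            rw [← Real.exp_nat_mul]
            congr 1
            ring
        _ ≤ Real.exp (-(3 * Real.log (Fintype.card V))) := by
            refine Real.exp_le_exp.2 (neg_le_neg ?_)
            rw [le_div_iff₀ hn0]
            have h4 : ((21000 * R₂ G * Fintype.card V : ℕ) : ℝ) ≤ m := by exact_mod_cast hm
            push_cast at h4
            have h5 : (0 : ℝ) ≤ R₂ G := Nat.cast_nonneg _
            nlinarith [mul_le_mul_of_nonneg_right hR hn0.le, mul_nonneg h5 hn0.le]
        _ = ((Fintype.card V : ℝ) ^ 3)⁻¹ := by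
            rw [Real.exp_neg, mul_comm, Real.exp_mul, Real.exp_log hn0]
            norm_cast
    calc (ENNReal.ofReal (1 - 1 / Fintype.card V)) ^ m
        = ENNReal.ofReal ((1 - 1 / Fintype.card V : ℝ) ^ m) := by
          rw [ENNReal.ofReal_pow]
          rw [sub_nonneg, div_le_one hn0]
          exact_mod_cast hn1
      _ ≤ ENNReal.ofReal (((Fintype.card V : ℝ) ^ 3)⁻¹) := ENNReal.ofReal_le_ofReal h1
      _ = ((Fintype.card V : ℝ≥0∞) ^ 3)⁻¹ := by
          rw [ENNReal.ofReal_inv_of_pos (by positivity), ENNReal.ofReal_pow hn0.le,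
            ENNReal.ofReal_natCast]
      _ ≤ 2 * ((Fintype.card V : ℝ≥0∞) ^ 3)⁻¹ := by
          conv_lhs => rw [← one_mul ((Fintype.card V : ℝ≥0∞) ^ 3)⁻¹]
          gcongr
          norm_num
  · have h1 := hL V G D hpos hD (6 * R₂ G) m (by
      calc 3500 * (6 * R₂ G) * Fintype.card V = 21000 * R₂ G * Fintype.card V := by ring
        _ ≤ m := hm) v
    refine h1.trans ?_
    have h2 := pow_three_le hn1 (sum_ball_ge G v)
    have h3 : ((Fintype.card V : ℝ≥0∞) ^ 3) ≤
        2 ^ (∑ i ∈ Finset.range (6 * R₂ G), (ball G v i).card) := by exact_mod_cast h2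
    gcongr
    rw [one_div, ← ENNReal.inv_pow]
    exact ENNReal.inv_le_inv.2 h3

end

end Pool.Agent.LSA.H85
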