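import Mathlib
import Pool.Agent.Helper43_LSA.Stmts
import Pool.Agent.Helper85_LSA.TUP

/-!
# Module XUP: the upper bound for the maximum load on regular graphs
-/

namespace Pool.Agent.LSA.H85

open Classical MeasureTheory Helper43.LSA
open scoped ENNReal

noncomputable section

variable {V : Type} [Fintype V]

theorem R₁_set_card (G : SimpleGraph V) (hn : 1 ≤ Fintype.card V) :
    Fintype.card V ∈ {r : ℕ | ∀ u : V, Real.log (Fintype.card V) ≤
      r * (ball G u r).card * Real.log r} := by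
  intro u
  have hlog : 0 ≤ Real.log (Fintype.card V) := Real.log_nonneg (by exact_mod_cast hn)
  have h1 : (1 : ℝ) ≤ Fintype.card V * (ball G u (Fintype.card V)).card := by
    have : 1 ≤ Fintype.card V * (ball G u (Fintype.card V)).card :=
      Nat.one_le_iff_ne_zero.2 (Nat.mul_ne_zero (by omega)
        (by have := one_le_card_ball G u (Fintype.card V); omega))
    exact_mod_cast this
  nlinarith

theorem R₁_le (G : SimpleGraph V) (hn : 1 ≤ Fintype.card V) : R₁ G ≤ Fintype.card V :=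
  Nat.sInf_le (R₁_set_card G hn)

theorem R₁_mem (G : SimpleGraph V) (hn : 1 ≤ Fintype.card V) (u : V) :
    Real.log (Fintype.card V) ≤ R₁ G * (ball G u (R₁ G)).card * Real.log (R₁ G) :=
  Nat.sInf_mem (s := {r : ℕ | ∀ u : V, Real.log (Fintype.card V) ≤
      r * (ball G u r).card * Real.log r}) ⟨_, R₁_set_card G hn⟩ u

theorem one_le_R₁ [Nonempty V] (G : SimpleGraph V) (hn : 2 ≤ Fintype.card V) : 1 ≤ R₁ G := by
  rcases Nat.eq_zero_or_pos (R₁ G) with h | h
  · exfalso
    have h1 := R₁_mem G (by omega) (Classical.arbitrary V)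
    rw [h] at h1
    have h2 : 0 < Real.log (Fintype.card V) := Real.log_pos (by exact_mod_cast hn)
    simp at h1
    linarith
  · exact h

theorem card_le_pow [Nonempty V] (G : SimpleGraph V) (hn : 2 ≤ Fintype.card V) (u : V) :
    Fintype.card V ≤ R₁ G ^ (R₁ G * (ball G u (R₁ G)).card) := by
  have h1 := R₁_mem G (by omega) u
  have h2 := one_le_R₁ G hn
  have hn0 : (0 : ℝ) < Fintype.card V := by
    have : 0 < Fintype.card V := by omega
    exact_mod_cast this
  have hR0 : (0 : ℝ) < R₁ G := by exact_mod_cast h2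
  have h3 : Real.log (Fintype.card V) ≤
      Real.log ((R₁ G : ℝ) ^ (R₁ G * (ball G u (R₁ G)).card)) := by
    rw [Real.log_pow]
    push_cast
    exact h1
  have h4 := (Real.log_le_log_iff hn0 (by positivity)).1 h3
  exact_mod_cast h4

theorem sum_ball_ge' (G : SimpleGraph V) (u : V) :
    12 * (R₁ G * (ball G u (R₁ G)).card) ≤
      ∑ i ∈ Finset.range (13 * R₁ G + 1), (ball G u i).card := by
  calc 12 * (R₁ G * (ball G u (R₁ G)).card)
      = ∑ i ∈ Finset.Ico (R₁ G) (13 * R₁ G), (ball G u (R₁ G)).card := by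
        rw [Finset.sum_const, Nat.card_Ico, smul_eq_mul, ← mul_assoc]
        congr 1
        omega
    _ ≤ ∑ i ∈ Finset.Ico (R₁ G) (13 * R₁ G), (ball G u i).card :=
        Finset.sum_le_sum fun i hi =>
          Finset.card_le_card (ball_subset G u (Finset.mem_Ico.1 hi).1)
    _ ≤ _ := Finset.sum_le_sum_of_subset (by
        intro i hi
        rw [Finset.mem_Ico] at hi
        exact Finset.mem_range.2 (by omega))

/-- Module XUP -/
theorem xup_stmt (hU : UpperStmt) : XupStmt := by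
  refine ⟨24 * 2 ^ 63 + 13, 12 * 2 ^ 63, ?_⟩
  intro V _ _ G D hD hn
  have hn2 : 2 ≤ Fintype.card V := le_trans (by norm_num) hn
  set n := Fintype.card V with hndef
  set R := R₁ G with hR
  have hR1 : 1 ≤ R := one_le_R₁ G hn2
  set b := max (2 ^ 63) (Nat.sqrt R) with hb
  have hb1 : 2 ^ 63 ≤ b := le_max_left _ _
  have hb2 : Nat.sqrt R ≤ b := le_max_right _ _
  have hb3 : b ≤ 2 ^ 63 * R := by
    refine max_le ?_ ?_
    · exact Nat.le_mul_of_pos_right _ hR1
    · exact (Nat.sqrt_le_self R).trans (Nat.le_mul_of_pos_left _ (by positivity))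
  have hb0 : 0 < b := lt_of_lt_of_le (by norm_num) hb1
  have hb4 : R ≤ b ^ 4 := by
    have h1 : R < (Nat.sqrt R + 1) * (Nat.sqrt R + 1) := Nat.lt_succ_sqrt R
    have h2 : Nat.sqrt R + 1 ≤ b * b := by
      have : 2 ≤ b := le_trans (by norm_num) hb1
      nlinarith
    calc R ≤ (Nat.sqrt R + 1) * (Nat.sqrt R + 1) := h1.le
      _ ≤ (b * b) * (b * b) := Nat.mul_le_mul h2 h2
      _ = b ^ 4 := by ring
  have hb5 : 12 * b ≤ n := by
    have h1 : Nat.sqrt R ≤ Nat.sqrt n := Nat.sqrt_le_sqrt (R₁_le G (by omega))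
    have h2 : 12 ≤ Nat.sqrt n := by
      rw [Nat.le_sqrt]
      exact le_trans (by norm_num) hn
    have h3 : Nat.sqrt n * Nat.sqrt n ≤ n := Nat.sqrt_le n
    rcases max_choice (2 ^ 63) (Nat.sqrt R) with h | h
    · rw [hb, h]; exact hn
    · rw [hb, h]
      calc 12 * Nat.sqrt R ≤ Nat.sqrt n * Nat.sqrt n := Nat.mul_le_mul h2 h1
        _ ≤ n := h3
  set m := n / (12 * b) with hm
  have hm1 : 12 * b * m ≤ n := Nat.mul_div_le n (12 * b)
  have hm2 : n ≤ 24 * b * m := by
    have h1 : 1 ≤ m := (Nat.le_div_iff_mul_le (by positivity)).2 (by omega)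
    have h2 : n < 12 * b * (m + 1) := by
      have := Nat.lt_mul_div_succ n (show 0 < 12 * b by positivity)
      simpa using this
    nlinarith
  have hnT : (n : ℝ≥0∞) ≠ ⊤ := ENNReal.natCast_ne_top n
  have hn0 : (n : ℝ≥0∞) ≠ 0 := by
    simp; omega
  have key : ∀ v : V, pr (chain G (unif V) n 0) (fun X => 24 * b + 1 + 13 * R ≤ X v) ≤
      ((n : ℝ≥0∞) ^ 3)⁻¹ := by
    intro v
    have h1 := hU V G D hD (unif V) (n : ℝ≥0∞)⁻¹ ((2 * b : ℕ) : ℝ≥0∞)
      (fun u => by simp [unif, hndef]) (by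
        have : (2 : ℕ) ^ 64 ≤ 2 * b := by omega
        exact_mod_cast this) (ENNReal.natCast_ne_top _) m (24 * b) n (by
        calc 6 * (m : ℝ≥0∞) * (n : ℝ≥0∞)⁻¹ * ((2 * b : ℕ) : ℝ≥0∞)
            = ((12 * b * m : ℕ) : ℝ≥0∞) * (n : ℝ≥0∞)⁻¹ := by push_cast; ring
          _ ≤ (n : ℝ≥0∞) * (n : ℝ≥0∞)⁻¹ := by
              gcongr
          _ = 1 := ENNReal.mul_inv_cancel hn0 hnT) hm2 (13 * R) v
    refine h1.trans ?_
    have h2 : (2 / ((2 * b : ℕ) : ℝ≥0∞)) = ((b : ℝ≥0∞))⁻¹ := by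
      push_cast
      rw [ENNReal.div_eq_inv_mul, ENNReal.mul_inv (by simp) (by simp), mul_comm,
        ← mul_assoc, ENNReal.mul_inv_cancel (by simp) (by simp), one_mul]
    rw [h2, ← ENNReal.inv_pow, ENNReal.inv_le_inv]
    have h3 : n ^ 3 ≤ b ^ (∑ i ∈ Finset.range (13 * R + 1), (ball G v i).card) := by
      calc n ^ 3 ≤ (R ^ (R * (ball G v R).card)) ^ 3 :=
            Nat.pow_le_pow_left (card_le_pow G hn2 v) 3
        _ ≤ ((b ^ 4) ^ (R * (ball G v R).card)) ^ 3 :=
            Nat.pow_le_pow_left (Nat.pow_le_pow_left hb4 _) 3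
        _ = b ^ (12 * (R * (ball G v R).card)) := by
            rw [← pow_mul, ← pow_mul]
            congr 1
            ring
        _ ≤ _ := Nat.pow_le_pow_right hb0 (sum_ball_ge' G v)
    exact_mod_cast h3
  calc pr (chain G (unif V) n 0) (fun X => ∃ v, (24 * 2 ^ 63 + 13) * R < X v)
      ≤ pr (chain G (unif V) n 0)
          (fun X => ∃ v ∈ (Finset.univ : Finset V), 24 * b + 1 + 13 * R ≤ X v) := by
        refine pr_mono _ fun X _ ⟨v, hv⟩ => ⟨v, Finset.mem_univ v, ?_⟩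
        nlinarith
    _ ≤ ∑ v ∈ (Finset.univ : Finset V),
          pr (chain G (unif V) n 0) (fun X => 24 * b + 1 + 13 * R ≤ X v) :=
        pr_exists_le _ Finset.univ fun v (X : V → ℕ) => 24 * b + 1 + 13 * R ≤ X v
    _ ≤ ∑ _v ∈ (Finset.univ : Finset V), 2 * ((n : ℝ≥0∞) ^ 3)⁻¹ := by
        refine Finset.sum_le_sum fun v _ => (key v).trans ?_
        conv_lhs => rw [← one_mul ((n : ℝ≥0∞) ^ 3)⁻¹]
        gcongr
        norm_num
    _ = (n : ℝ≥0∞) * (2 * ((n : ℝ≥0∞) ^ 3)⁻¹) := by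
        rw [Finset.sum_const, nsmul_eq_mul, Finset.card_univ]
    _ ≤ _ := enn_bound hn2

end

end Pool.Agent.LSA.H85
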